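import Pool.Agent.helper78.HFN.Spec

/-!
# Row CUR of project HFN
-/

set_option autoImplicit false

open Polynomial Module

namespace Pool.Agent.HFN

noncomputable section

/-- the polynomial `c x (x + 1)^(a - 1)` -/
def CUR_d (a : ℕ) (c : ℂ) : ℂ[X] := C c * X * (X + 1) ^ (a - 1)

/-- the curves -/
def CUR_cv (a b : ℕ) (c : ℂ) : AA :=
  if b = 0 then C (X - C c) else if a = 0 then X - C (C c) else X ^ b - C (CUR_d a c)

theorem CUR_deg (a : ℕ) (c : ℂ) (ha : 1 ≤ a) (hc : c ≠ 0) : (CUR_d a c).natDegree = a := by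
  unfold CUR_d
  have h1 : (C c * X : ℂ[X]) ≠ 0 := mul_ne_zero (C_ne_zero.2 hc) X_ne_zero
  have h2 : ((X : ℂ[X]) + 1) ^ (a - 1) ≠ 0 := pow_ne_zero _ (by
    have := Polynomial.X_add_C_ne_zero (1 : ℂ)
    rwa [C_1] at this)
  have h3 : ((X : ℂ[X]) + 1).natDegree = 1 := by
    have := Polynomial.natDegree_X_add_C (1 : ℂ)
    rwa [C_1] at this
  rw [natDegree_mul h1 h2, natDegree_C_mul_X c hc, natDegree_pow, h3]
  omega

theorem CUR_dX (a b : ℕ) (c : ℂ) (ha : 1 ≤ a) (hc : c ≠ 0) : dX (X ^ b - C (CUR_d a c) : AA) = a := by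
  unfold dX sw
  rw [map_sub, map_pow, Polynomial.Bivariate.swap_Y, Polynomial.Bivariate.swap_C, ← C_pow]
  have h1 : ((CUR_d a c).map (C : ℂ →+* ℂ[X])).natDegree = a := by
    rw [natDegree_map_eq_of_injective C_injective, CUR_deg a c ha hc]
  rw [natDegree_sub_eq_right_of_natDegree_lt, h1]
  rw [natDegree_C, h1]
  omega

theorem CUR_irr (a b : ℕ) (c : ℂ) (hb : 1 ≤ b) (hc : c ≠ 0) :
    Irreducible (X ^ b - C (CUR_d a c) : AA) := by
  have hmonic : (X ^ b - C (CUR_d a c) : AA).Monic := monic_X_pow_sub_C _ (by omega)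
  have hdeg : (X ^ b - C (CUR_d a c) : AA).natDegree = b := natDegree_X_pow_sub_C
  have hprime : (Ideal.span {(X : ℂ[X])}).IsPrime := by
    rw [Ideal.span_singleton_prime X_ne_zero]
    exact prime_X
  have hne : (Ideal.span {(X : ℂ[X])}) ≠ ⊤ := hprime.ne_top
  have hcoef : ∀ n, n ≠ b → (X ^ b - C (CUR_d a c) : AA).coeff n = if n = 0 then - CUR_d a c else 0 := by
    intro n hn
    rw [coeff_sub, coeff_X_pow, if_neg hn, coeff_C]
    split_ifs
    · rw [zero_sub]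
    · rw [sub_zero]
  have hE : (X ^ b - C (CUR_d a c) : AA).IsEisensteinAt (Ideal.span {(X : ℂ[X])}) := by
    refine ⟨?_, ?_, ?_⟩
    · rw [hmonic.leadingCoeff]
      exact fun h => hne ((Ideal.eq_top_iff_one _).2 h)
    · intro n hn
      rw [hdeg] at hn
      rw [hcoef n (by omega)]
      split_ifs
      · rw [neg_mem_iff, Ideal.mem_span_singleton]
        exact ⟨C c * (X + 1) ^ (a - 1), by unfold CUR_d; ring⟩
      · exact Ideal.zero_mem _
    · rw [hcoef 0 (by omega), if_pos rfl, Ideal.span_singleton_pow, neg_mem_iff, Ideal.mem_span_singleton]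
      rintro ⟨D, hD⟩
      have h1 : (X : ℂ[X]) * (C c * (X + 1) ^ (a - 1)) = X * (X * D) := by
        unfold CUR_d at hD
        linear_combination hD
      have h2 := congrArg (Polynomial.eval 0) (mul_left_cancel₀ X_ne_zero h1)
      simp at h2
      exact hc h2
  exact hE.irreducible hprime hmonic.isPrimitive (by rw [hdeg]; omega)

theorem CUR_main (a b : ℕ) (c : ℂ) (h : Ty a b) (hc : c ≠ 0) :
    Irreducible (CUR_cv a b c) ∧ dX (CUR_cv a b c) = a ∧ dY (CUR_cv a b c) = b := by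
  unfold CUR_cv
  rcases h with ⟨rfl, rfl⟩ | ⟨rfl, rfl⟩ | ⟨h1, h2⟩
  · rw [if_pos rfl]
    refine ⟨?_, ?_, dY_C _⟩
    · exact (Polynomial.prime_C_iff.2 (prime_X_sub_C c)).irreducible
    · rw [dX_C, natDegree_X_sub_C]
  · rw [if_neg one_ne_zero, if_pos rfl]
    refine ⟨(prime_X_sub_C (C c : ℂ[X])).irreducible, ?_, natDegree_X_sub_C _⟩
    unfold dX sw
    rw [map_sub, Polynomial.Bivariate.swap_Y, Polynomial.Bivariate.swap_C, map_C, ← C_sub, natDegree_C]
  · rw [if_neg (by omega), if_neg (by omega)]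
    exact ⟨CUR_irr a b c h2 hc, CUR_dX a b c h1 hc, natDegree_X_pow_sub_C⟩

theorem CUR_assoc (f g : AA) (hf : f ≠ 0) (h : Associated f g) : dX f = dX g ∧ dY f = dY g := by
  obtain ⟨u, rfl⟩ := h
  have hu : (u : AA) ≠ 0 := u.ne_zero
  have hv : ((u⁻¹ : AAˣ) : AA) ≠ 0 := (u⁻¹).ne_zero
  have h1 : (u : AA) * ((u⁻¹ : AAˣ) : AA) = 1 := u.mul_inv
  have h2 := dX_mul hu hv
  have h3 := dY_mul hu hv
  rw [h1, dX_one] at h2
  rw [h1, dY_one] at h3
  rw [dX_mul hf hu, dY_mul hf hu]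
  constructor <;> omega

theorem CUR_ev (f g : AA) (z : ℂ × ℂ) (h : Associated f g) (h0 : ev z f = 0) : ev z g = 0 := by
  obtain ⟨u, rfl⟩ := h
  rw [ev_mul, h0, zero_mul]

theorem CUR : CUR_stmt := by
  refine ⟨CUR_cv, CUR_main, ?_⟩
  intro a b a' b' c c' hT hT' hc hc' hcc hass
  obtain ⟨h1, h2, h3⟩ := CUR_main a b c hT hc
  obtain ⟨h1', h2', h3'⟩ := CUR_main a' b' c' hT' hc'
  obtain ⟨h4, h5⟩ := CUR_assoc _ _ h1.ne_zero hass
  rw [h2, h2'] at h4
  rw [h3, h3'] at h5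
  subst h4
  subst h5
  rcases hT with ⟨rfl, rfl⟩ | ⟨rfl, rfl⟩ | ⟨ha, hb⟩
  · have h6 := CUR_ev _ _ (c, 0) hass (by
      unfold CUR_cv
      rw [if_pos rfl, ev_C]
      simp)
    unfold CUR_cv at h6
    rw [if_pos rfl, ev_C] at h6
    simp only [eval_sub, eval_X, eval_C] at h6
    exact hcc (sub_eq_zero.1 h6)
  · have h6 := CUR_ev _ _ (0, c) hass (by
      unfold CUR_cv
      rw [if_neg one_ne_zero, if_pos rfl, ev_sub, ev_X, ev_C]
      simp)
    unfold CUR_cv at h6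
    rw [if_neg one_ne_zero, if_pos rfl, ev_sub, ev_X, ev_C] at h6
    simp only [eval_C] at h6
    exact hcc (sub_eq_zero.1 h6)
  · obtain ⟨y, hy⟩ := IsAlgClosed.exists_pow_nat_eq (c * 2 ^ (a - 1)) (by omega : 0 < b)
    have hv : ∀ e : ℂ, ev (1, y) (X ^ b - C (CUR_d a e) : AA) = y ^ b - e * 2 ^ (a - 1) := by
      intro e
      rw [ev_sub, ev_pow, ev_X, ev_C]
      unfold CUR_d
      simp only [eval_mul, eval_C, eval_X, eval_pow, eval_add, eval_one]
      norm_num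
    have h6 := CUR_ev _ _ (1, y) hass (by
      unfold CUR_cv
      rw [if_neg (by omega), if_neg (by omega), hv, hy, sub_self])
    unfold CUR_cv at h6
    rw [if_neg (by omega), if_neg (by omega), hv, hy, ← sub_mul] at h6
    rcases mul_eq_zero.1 h6 with h7 | h7
    · exact hcc (sub_eq_zero.1 h7)
    · exact absurd h7 (pow_ne_zero _ two_ne_zero)

end

end Pool.Agent.HFN
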