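import Pool.Agent.helper78.HFN.Spec

/-!
# Row FAC of project HFN
-/

set_option autoImplicit false

open Polynomial Module

namespace Pool.Agent.HFN

noncomputable section

theorem FAC_step {B E B' : AA} {e : ℕ} (hE : Irreducible E) (hB : B = E ^ e * B') (hB0 : B ≠ 0)
    (he1 : 1 ≤ e) (he2 : e ≤ 2) (hn : ¬ E ∣ B') (hc : ∀ E : AA, Irreducible E → ¬ E ^ 3 ∣ B)
    (ih : ∀ B' : AA, DvdNotUnit B' B → B' ≠ 0 → (∀ E : AA, Irreducible E → ¬ E ^ 3 ∣ B') →
      ∃ L : List (AA × ℕ), (∀ p ∈ L, 1 ≤ p.2 ∧ p.2 ≤ 2) ∧ Cvs (L.map Prod.fst) ∧ Associated B' (fl L).prod) :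
    ∃ L : List (AA × ℕ), (∀ p ∈ L, 1 ≤ p.2 ∧ p.2 ≤ 2) ∧ Cvs (L.map Prod.fst) ∧ Associated B (fl L).prod := by
  have hB'0 : B' ≠ 0 := by
    rintro rfl
    apply hB0
    rw [hB, mul_zero]
  have hdiv : B' ∣ B := ⟨E ^ e, by rw [hB, mul_comm]⟩
  have hnu : ¬ IsUnit (E ^ e) := by
    intro h
    exact hE.not_isUnit ((isUnit_pow_iff (by omega)).1 h)
  obtain ⟨L, hL1, hL2, hL3⟩ := ih B' ⟨hB'0, E ^ e, hnu, by rw [hB, mul_comm]⟩ hB'0
    (fun F hF h => hc F hF (h.trans hdiv))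
  refine ⟨(E, e) :: L, ?_, ?_, ?_⟩
  · intro p hp
    rcases List.mem_cons.1 hp with h | h
    · rw [h]
      exact ⟨he1, he2⟩
    · exact hL1 p h
  · constructor
    · intro C hC
      rw [List.map_cons] at hC
      rcases List.mem_cons.1 hC with h | h
      · rw [h]
        exact hE
      · exact hL2.1 C h
    · rw [List.map_cons, List.pairwise_cons]
      refine ⟨?_, hL2.2⟩
      intro C hC hass
      obtain ⟨p, hp, rfl⟩ := List.mem_map.1 hC
      apply hn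
      have h1 : p.1 ∈ fl L := by
        unfold fl
        rw [List.mem_flatMap]
        refine ⟨p, hp, ?_⟩
        rw [List.mem_replicate]
        exact ⟨by have := (hL1 p hp).1; omega, rfl⟩
      exact (hass.dvd.trans (List.dvd_prod h1)).trans hL3.symm.dvd
  · have h1 : (fl ((E, e) :: L)).prod = E ^ e * (fl L).prod := by
      unfold fl
      rw [List.flatMap_cons, List.prod_append, List.prod_replicate]
    rw [h1, hB]
    exact hL3.mul_left _

theorem FAC : FAC_stmt := by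
  intro B
  refine WellFounded.fix (C := fun B : AA => B ≠ 0 → (∀ E : AA, Irreducible E → ¬ E ^ 3 ∣ B) →
      ∃ L : List (AA × ℕ), (∀ p ∈ L, 1 ≤ p.2 ∧ p.2 ≤ 2) ∧ Cvs (L.map Prod.fst) ∧ Associated B (fl L).prod)
    (wellFounded_dvdNotUnit (α := AA)) ?_ B
  intro B ih hB0 hc
  by_cases hu : IsUnit B
  · refine ⟨[], by simp, ⟨by simp, by simp⟩, ?_⟩
    exact associated_one_iff_isUnit.2 hu
  · obtain ⟨E, hE, hEB⟩ := WfDvdMonoid.exists_irreducible_factor hu hB0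
    by_cases h2 : E ^ 2 ∣ B
    · obtain ⟨B', hB'⟩ := h2
      refine FAC_step hE hB' hB0 (by norm_num) le_rfl ?_ hc ih
      rintro ⟨D, hD⟩
      exact hc E hE ⟨D, by rw [hB', hD]; ring⟩
    · obtain ⟨B', hB'⟩ := hEB
      refine FAC_step (e := 1) hE (by rw [hB', pow_one]) hB0 le_rfl (by norm_num) ?_ hc ih
      rintro ⟨D, hD⟩
      exact h2 ⟨D, by rw [hB', hD]; ring⟩

end

end Pool.Agent.HFN
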