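import Pool.Agent.helper78.HFN.Spec

/-!
# Row LM1 of project HFN: limits are given by types and masses
-/

set_option autoImplicit false

open Polynomial Module

namespace Pool.Agent.HFN

noncomputable section

open Filter Topology

/-- one item -/
theorem LM1_item (hPHI : PHI_stmt) (a b : ℕ) (ν x y x' y' δ r : ℝ) (hν : 0 ≤ ν) (hδ : 0 < δ) (hr : 0 < r)
    (hx : δ ≤ x) (hy : δ ≤ y) (hx' : δ / 2 ≤ x') (hy' : δ / 2 ≤ y')
    (h1 : |x' - x| ≤ 1 / r) (h2 : |y' - y| ≤ 1 / r) :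
    |phi a b ν x' y' - phi a b ν x y| ≤ 8 / δ * ν / r := by
  have ha : (0 : ℝ) ≤ a := Nat.cast_nonneg a
  have hb : (0 : ℝ) ≤ b := Nat.cast_nonneg b
  by_cases h : 2 * ν ≤ δ / 2 * (a + b)
  · have e1 : phi a b ν x' y' = 0 := by
      apply hPHI.2.1 a b ν x' y' hν
      have h3 : δ / 2 * b ≤ x' * b := mul_le_mul_of_nonneg_right hx' hb
      have h4 : δ / 2 * a ≤ y' * a := mul_le_mul_of_nonneg_right hy' ha
      linarith
    have e2 : phi a b ν x y = 0 := by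
      apply hPHI.2.1 a b ν x y hν
      have h3 : δ / 2 * b ≤ x * b := mul_le_mul_of_nonneg_right (by linarith) hb
      have h4 : δ / 2 * a ≤ y * a := mul_le_mul_of_nonneg_right (by linarith) ha
      linarith
    rw [e1, e2, sub_zero, abs_zero]
    positivity
  · rw [not_le] at h
    have h3 := hPHI.2.2.2 a b ν ν x' x y' y
    rw [sub_self, abs_zero, mul_zero, zero_add] at h3
    refine le_trans h3 ?_
    have h4 : 2 * (b : ℝ) * |x' - x| ≤ 2 * b * (1 / r) := mul_le_mul_of_nonneg_left h1 (by positivity)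
    have h5 : 2 * (a : ℝ) * |y' - y| ≤ 2 * a * (1 / r) := mul_le_mul_of_nonneg_left h2 (by positivity)
    have h6 : (a : ℝ) + b ≤ 4 * ν / δ := by
      rw [le_div_iff₀ hδ]
      linarith
    have h7 : 2 * ((a : ℝ) + b) * (1 / r) ≤ 2 * (4 * ν / δ) * (1 / r) :=
      mul_le_mul_of_nonneg_right (by linarith) (by positivity)
    have h8 : 2 * (4 * ν / δ) * (1 / r) = 8 / δ * ν / r := by ring
    linarith

theorem LM1_floor (x : ℝ) (r : ℕ) (hx : 0 < x) (hr : 0 < r) :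
    |(⌊x * r⌋₊ : ℝ) / r - x| ≤ 1 / r := by
  have hr' : (0 : ℝ) < r := by exact_mod_cast hr
  have h1 := Nat.floor_le (by positivity : (0 : ℝ) ≤ x * r)
  have h2 := Nat.lt_floor_add_one (x * r)
  have h3 : (⌊x * r⌋₊ : ℝ) / r - x = ((⌊x * r⌋₊ : ℝ) - x * r) / r := by
    field_simp
  rw [h3, abs_div, abs_of_pos hr']
  apply div_le_div_of_nonneg_right _ hr'.le
  rw [abs_le]
  constructor <;> linarith

theorem LM1_floor2 (x δ : ℝ) (r : ℕ) (hδ : 0 < δ) (hx : δ ≤ x) (hr : 2 / δ ≤ r) :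
    δ / 2 ≤ (⌊x * r⌋₊ : ℝ) / r := by
  have hr' : (0 : ℝ) < r := lt_of_lt_of_le (by positivity) hr
  have h2 := Nat.lt_floor_add_one (x * r)
  rw [le_div_iff₀ hr']
  have h3 : 2 ≤ δ * r := by
    rw [div_le_iff₀ hδ] at hr
    linarith
  have h4 : δ * r ≤ x * r := mul_le_mul_of_nonneg_right hx hr'.le
  linarith

/-- one Hilbert function -/
theorem LM1_one (hPHI : PHI_stmt) (r m T H i j : ℕ) (a b n : Fin m → ℕ) (hr : 1 ≤ r) (hT : 3 ≤ T)
    (hD : Data r m a b n) (x y δ : ℝ) (hδ : 0 < δ) (hx : δ ≤ x) (hy : δ ≤ y) (hrδ : 2 / δ ≤ r)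
    (hi : i = ⌊x * r⌋₊) (hj : j = ⌊y * r⌋₊)
    (hH : |(H : ℤ) - Fn r m a b n i j| * ((T : ℤ) * T) ≤ 264 * (r : ℤ) ^ 2) :
    |(H : ℝ) / r - (3 - ∑ t, phi (a t) (b t) ((n t : ℝ) / r) x y)| ≤ 264 * ((r : ℝ) / (T : ℝ) ^ 2) + 8 / δ / r := by
  have hr' : (0 : ℝ) < r := by exact_mod_cast hr
  have hT' : (0 : ℝ) < T := by exact_mod_cast (by omega : 0 < T)
  have hxr := LM1_floor x r (lt_of_lt_of_le hδ hx) hr
  have hyr := LM1_floor y r (lt_of_lt_of_le hδ hy) hr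
  rw [← hi] at hxr
  rw [← hj] at hyr
  have hx2 := LM1_floor2 x δ r hδ hx hrδ
  have hy2 := LM1_floor2 y δ r hδ hy hrδ
  rw [← hi] at hx2
  rw [← hj] at hy2
  -- the function Fn
  have hF : (Fn r m a b n i j : ℝ) / r = 3 - ∑ t, phi (a t) (b t) ((n t : ℝ) / r) ((i : ℝ) / r) ((j : ℝ) / r) := by
    unfold Fn
    push_cast
    rw [sub_div, mul_div_assoc, div_self hr'.ne', mul_one, Finset.sum_div]
    congr 1
    apply Finset.sum_congr rfl
    intro t _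
    exact hPHI.2.2.1 (a t) (b t) (n t) r i j hr
  have hH' : |(H : ℝ) - (Fn r m a b n i j : ℝ)| * ((T : ℝ) * T) ≤ 264 * (r : ℝ) ^ 2 := by exact_mod_cast hH
  have e1 : |(H : ℝ) / r - (Fn r m a b n i j : ℝ) / r| ≤ 264 * ((r : ℝ) / (T : ℝ) ^ 2) := by
    rw [← sub_div, abs_div, abs_of_pos hr', div_le_iff₀ hr']
    have h1 : |(H : ℝ) - (Fn r m a b n i j : ℝ)| ≤ 264 * (r : ℝ) ^ 2 / ((T : ℝ) * T) := by
      rw [le_div_iff₀ (by positivity)]
      exact hH'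
    refine le_trans h1 (le_of_eq ?_)
    field_simp
  have e2 : |∑ t, phi (a t) (b t) ((n t : ℝ) / r) ((i : ℝ) / r) ((j : ℝ) / r) -
      ∑ t, phi (a t) (b t) ((n t : ℝ) / r) x y| ≤ 8 / δ / r := by
    rw [← Finset.sum_sub_distrib]
    refine le_trans (Finset.abs_sum_le_sum_abs _ _) ?_
    have h1 : ∀ t ∈ Finset.univ, |phi (a t) (b t) ((n t : ℝ) / r) ((i : ℝ) / r) ((j : ℝ) / r) -
        phi (a t) (b t) ((n t : ℝ) / r) x y| ≤ 8 / δ / r * ((n t : ℝ) / r) := by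
      intro t _
      have h2 := LM1_item hPHI (a t) (b t) ((n t : ℝ) / r) x y ((i : ℝ) / r) ((j : ℝ) / r) δ r (by positivity)
        hδ hr' hx hy hx2 hy2 hxr hyr
      refine le_trans h2 (le_of_eq ?_)
      ring
    refine le_trans (Finset.sum_le_sum h1) ?_
    rw [← Finset.mul_sum, ← Finset.sum_div]
    have h3 : (∑ t, (n t : ℝ)) ≤ r := by exact_mod_cast hD.sum_le
    have h4 : (∑ t, (n t : ℝ)) / r ≤ 1 := (div_le_one hr').2 h3
    have h5 : 8 / δ / r * ((∑ t, (n t : ℝ)) / r) ≤ 8 / δ / r * 1 := mul_le_mul_of_nonneg_left h4 (by positivity)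
    linarith
  rw [hF] at e1
  have e3 : (H : ℝ) / r - (3 - ∑ t, phi (a t) (b t) ((n t : ℝ) / r) x y) =
      ((H : ℝ) / r - (3 - ∑ t, phi (a t) (b t) ((n t : ℝ) / r) ((i : ℝ) / r) ((j : ℝ) / r))) -
      (∑ t, phi (a t) (b t) ((n t : ℝ) / r) ((i : ℝ) / r) ((j : ℝ) / r) -
      ∑ t, phi (a t) (b t) ((n t : ℝ) / r) x y) := by ring
  rw [e3]
  exact le_trans (abs_sub _ _) (add_le_add e1 e2)

open Pool.Agent.helper97.FP in
theorem LM1 (hNRM : NRM_stmt) (hPHI : PHI_stmt) (hCPT : CPT_stmt) : LM1_stmt := by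
  intro hMain h hlim
  obtain ⟨T, hT1, hT2, hT3⟩ := hNRM
  obtain ⟨r, Y, hY, hr, hh⟩ := hlim
  have hdata : ∀ k, ∃ (m : ℕ) (a b n : Fin m → ℕ), Data (r k) m a b n ∧
      ((3 ≤ T (r k) ∧ T (r k) ≤ 2 * r k ∧ 100 * r k ≤ T (r k) * T (r k)) → ∀ i j : ℕ, T (r k) ≤ i → T (r k) ≤ j →
        |(hilbert (doubleIdeal (Y k)) i j : ℤ) - Fn (r k) m a b n i j| * ((T (r k) : ℤ) * T (r k)) ≤
          264 * (r k : ℤ) ^ 2) := by
    intro k
    by_cases hk : 3 ≤ T (r k) ∧ T (r k) ≤ 2 * r k ∧ 100 * r k ≤ T (r k) * T (r k)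
    · obtain ⟨m, a, b, n, hD, hb⟩ := (hMain (r k) (T (r k)) (T (r k)) hk.1 hk.1 hk.2.1 hk.2.1 hk.2.2).1 (Y k) (hY k)
      exact ⟨m, a, b, n, hD, fun _ => hb⟩
    · refine ⟨0, Fin.elim0, Fin.elim0, Fin.elim0, ⟨fun t => t.elim0, by simp⟩, fun h => absurd h hk⟩
  choose m a b n hD hb using hdata
  have hsum : ∀ k, ∑ t, (n k t : ℝ) / r k ≤ 1 := by
    intro k
    rw [← Finset.sum_div]
    apply div_le_one_of_le₀ _ (Nat.cast_nonneg _)
    exact_mod_cast (hD k).sum_le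
  obtain ⟨s, a', b', ν', hs, hTy, hν0, hνs, hν1, hlim'⟩ := hCPT m a b (fun k t => (n k t : ℝ) / r k)
    (fun k => (hD k).ty) (fun k t => by positivity) hsum
  refine ⟨a', b', ν', hTy, hν0, hνs, hν1, fun x y hx hy => ?_⟩
  obtain ⟨δ, hδ, hδx, hδy⟩ : ∃ δ : ℝ, 0 < δ ∧ δ ≤ x ∧ δ ≤ y := ⟨min x y, lt_min hx hy, min_le_left _ _, min_le_right _ _⟩
  -- the difference tends to zero
  have hdiff : Tendsto (fun k => (hilbert (doubleIdeal (Y k)) ⌊x * r k⌋₊ ⌊y * r k⌋₊ : ℝ) / r k -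
      (3 - ∑ t, phi (a k t) (b k t) ((n k t : ℝ) / r k) x y)) atTop (𝓝 0) := by
    apply squeeze_zero_norm' (a := fun k => 264 * ((r k : ℝ) / (T (r k) : ℝ) ^ 2) + 8 / δ / (r k : ℝ))
    · have c1 := hr.eventually hT1
      have c2 : ∀ᶠ k in atTop, (T (r k) : ℝ) / r k < δ := (hT2.comp hr).eventually_lt_const hδ
      have c3 := hr.eventually (eventually_ge_atTop (max 1 ⌈2 / δ⌉₊))
      filter_upwards [c1, c2, c3] with k h1 h2 h3
      have hr1 : 1 ≤ r k := le_trans (le_max_left _ _) h3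
      have hr' : (0 : ℝ) < r k := by exact_mod_cast hr1
      have hr2 : 2 / δ ≤ r k := by
        have h4 : ⌈2 / δ⌉₊ ≤ r k := le_trans (le_max_right _ _) h3
        exact le_trans (Nat.le_ceil _) (by exact_mod_cast h4)
      rw [div_lt_iff₀ hr'] at h2
      have hTi : T (r k) ≤ ⌊x * r k⌋₊ := Nat.le_floor (by
        have := mul_le_mul_of_nonneg_right hδx hr'.le
        linarith)
      have hTj : T (r k) ≤ ⌊y * r k⌋₊ := Nat.le_floor (by
        have := mul_le_mul_of_nonneg_right hδy hr'.le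
        linarith)
      rw [Real.norm_eq_abs]
      exact LM1_one hPHI (r k) (m k) (T (r k)) _ _ _ (a k) (b k) (n k) hr1 h1.1 (hD k) x y δ hδ hδx hδy hr2
        rfl rfl (hb k h1 _ _ hTi hTj)
    · have c1 : Tendsto (fun k => 264 * ((r k : ℝ) / (T (r k) : ℝ) ^ 2)) atTop (𝓝 (264 * 0)) :=
        (hT3.comp hr).const_mul 264
      have c2 : Tendsto (fun k => 8 / δ / (r k : ℝ)) atTop (𝓝 0) :=
        tendsto_const_nhds.div_atTop (tendsto_natCast_atTop_atTop.comp hr)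
      have c3 := c1.add c2
      rw [mul_zero, add_zero] at c3
      exact c3
  have h1 := hdiff.comp hs.tendsto_atTop
  have h2 := (hh x y hx hy).comp hs.tendsto_atTop
  have h3 := h2.sub h1
  have h4 : Tendsto (fun k => 3 - ∑ t, phi (a (s k) t) (b (s k) t) ((n (s k) t : ℝ) / r (s k)) x y) atTop
      (𝓝 (3 - ∑' t, phi (a' t) (b' t) (ν' t) x y)) := (hlim' x y hx hy).const_sub 3
  rw [sub_zero] at h3
  refine tendsto_nhds_unique h3 (h4.congr fun k => ?_)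
  simp only [Function.comp]
  ring

end

end Pool.Agent.HFN
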